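import Pool.Agent.Lib.MP_4cfe6b_lc.Regular
import Pool.Agent.Lib.MP_4cfe6b_lc.Modular

/-!
# MP_4cfe6b_lc: nondeterministic modular and top-down regular trellis automata are equivalent

For every finite input alphabet, the nondeterministic real-time trellis automata with modular
labelling and those with top-down regular labelling accept exactly the same languages.

Both classes are equal to the class of languages of local systems (equivalently, of homogeneous
nondeterministic automata).  A modular labelling is verified by local constraints on a triangle
that is larger by the constant factor `24`: the vertical lines and the horizontal lines carry
counters which force the right comparison of the levels of the lines at all crossings, and each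
line of level `m` carries the label at scale `m + 1`.  The triangle of size `24 n` is then folded
into the triangle of size `n`, where the letters of the input are transported along the lines.
-/

namespace Pool.Agent.Results.MP_4cfe6b_lc.ModEqReg

open Pool.Agent.Lib.MP_4cfe6b_lc

/-- For every finite alphabet `S`, the class of languages over `S` accepted by nondeterministic
real-time trellis automata with modular labelling is equal to the class of languages over `S`
accepted by nondeterministic real-time trellis automata with top-down regular labelling. -/
theorem result (S : Type) [Finite S] : NMod S = NReg S := by
  ext L
  constructor
  · rintro ⟨A, hA, rfl⟩
    have := A.finΔ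
    obtain ⟨C, hC⟩ := exists_verifies_of_modular A.lab hA
    obtain ⟨R, hR⟩ := exists_locSys A C 24 hC
    rw [← hR]
    exact language_mem_NReg R
  · rintro ⟨A, hA, rfl⟩
    have := A.finΔ
    obtain ⟨C, hC⟩ := exists_verifies_of_regular A.lab hA
    obtain ⟨R, hR⟩ := exists_locSys A C 2 hC
    rw [← hR]
    exact language_mem_NMod R

end Pool.Agent.Results.MP_4cfe6b_lc.ModEqReg
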